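import Pool.Agent.H918.J.ImageCurve
import Pool.Agent.H916.Fam
import Pool.Graph.R_pool_sql_team_seeded_64922ed1.X180.CD.Fin

/-! PROJECT AI (helper918), task AI-ALG: a linear bound for all maps. -/

set_option autoImplicit false
set_option linter.overlappingInstances false

open FF Pool.Agent.W603.LV Pool.Agent.W603.PV Pool.Agent.W602.GT Pool.Agent.N154.GG
open Pool.Agent.Y216 (OnVar CurveBound)
open Pool.Agent.H918.SS (ProjVariety)
open Pool.Agent.H918.SP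
open Pool.Agent.H916 (PSet genus IsConst)

namespace Pool.Agent.H918.AI

variable {n : ℕ} {ι : Type} {F : ι → MvPolynomial (Fin (n + 1)) ℂ} {d : ℕ} {K : Type} [Field K]
  [Algebra ℂ K] {y : Fin (n + 1) → K}

/-- AI-ALG: a linear bound for all maps. -/
theorem all_of_curveBound (hgen : coords ℂ y = ⊤) (hdim : Algebra.trdeg ℂ K = (2 : ℕ))
    (h : CurveBound ℂ y)
    (hlow : ∀ (E : Type) [Field E] [Algebra ℂ E] [IsFF ℂ E] (z : Fin (n + 1) → E), OnVar ℂ y z →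
      coords ℂ z = ⊤ → 0 < canDeg ℂ E) :
    ∃ A : ℕ, ∀ (L : Type) [Field L] [Algebra ℂ L] [IsFF ℂ L] (f : Fin (n + 1) → L), OnVar ℂ y f →
      pht ℂ f ≤ A * max (canDeg ℂ L) 0 := by
  obtain ⟨G, hG, hyG, B₁, hB₁⟩ := h
  obtain ⟨B₂, hB₂⟩ := Pool.Agent.X180.CD.exists_bound hgen hdim hG hyG
  refine ⟨B₁ + B₂, fun L _ _ _ f hf => ?_⟩
  have hM : (0 : ℤ) ≤ max (canDeg ℂ L) 0 := le_max_right _ _
  have hb1 : (0 : ℤ) ≤ (B₁ : ℤ) := Int.natCast_nonneg _
  have hb2 : (0 : ℤ) ≤ (B₂ : ℤ) := Int.natCast_nonneg _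
  push_cast
  by_cases hfG : val f G = 0
  · by_cases hc : IsConst ℂ f
    · rw [Pool.Agent.H916.pht_const' hf.1 hc]
      positivity
    · obtain ⟨E, _, _, _, z, m, hm, hz, hz0, hp, hcan, hiff⟩ := image_curve hf.1 hc
      have hon : OnVar ℂ y z := ⟨hz0, fun H hH h0 => (hiff H hH).1 (hf.2 H hH h0)⟩
      have hzne : z ≠ 0 := by
        obtain ⟨j, hj⟩ := hz0
        intro h0
        exact hj (by rw [h0]; rfl)
      have h1 : pht ℂ z ≤ B₂ := hB₂ E z hzne hz ((hiff G hG).1 hfG) hon.2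
      have h2 : 0 < canDeg ℂ E := hlow E z hon hz
      have hm0 : (0 : ℤ) ≤ (m : ℤ) := Int.natCast_nonneg _
      have h3 : (m : ℤ) ≤ canDeg ℂ L := by
        refine le_trans ?_ hcan
        nlinarith
      have h4 : (m : ℤ) ≤ max (canDeg ℂ L) 0 := h3.trans (le_max_left _ _)
      rw [hp]
      calc (m : ℤ) * pht ℂ z ≤ (m : ℤ) * B₂ := mul_le_mul_of_nonneg_left h1 hm0
        _ ≤ max (canDeg ℂ L) 0 * B₂ := mul_le_mul_of_nonneg_right h4 hb2
        _ ≤ (B₁ + B₂) * max (canDeg ℂ L) 0 := by nlinarith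
  · refine (hB₁ L f hf hfG).trans ?_
    exact mul_le_mul_of_nonneg_right (by linarith) hM

end Pool.Agent.H918.AI
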