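import Pool.Agent.H918.J.Defs
import Pool.Agent.H918.H.Alg
import Pool.Agent.H918.E.Tent
import Pool.Agent.H918.S.Conv

/-! PROJECT AI: Brody hyperbolicity. -/

set_option autoImplicit false
set_option linter.overlappingInstances false

open FF Pool.Agent.W603.LV Pool.Agent.W603.PV Pool.Agent.W602.GT Pool.Agent.N154.GG
open Pool.Agent.Y216 (OnVar CurveBound)
open Pool.Agent.H918.SS (ProjVariety cone_smulF)
open Pool.Agent.H918.SP
open Pool.Agent.H916 (PSet genus IsConst)
open Pool.Agent.Y190.OP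
open Filter Topology Metric Set
open scoped LinearAlgebra.Projectivization

namespace Pool.Agent.H918.AI

variable {n : ℕ} {ι : Type} {F : ι → MvPolynomial (Fin (n + 1)) ℂ} {d : ℕ} {K : Type} [Field K]
  [Algebra ℂ K] {y : Fin (n + 1) → K}

theorem B918.ent_of (hX : ProjVariety F d y) {f : ℂ → Fin (n + 1) → ℂ} (hf : EntireIn F f) :
    ∃ g, HolIn F g ∧ ∃ z w, g z ≠ g w := by
  obtain ⟨h1, h2, a, b, hab⟩ := hf
  have hne : ∀ t, f t ≠ 0 := fun t => (h2 t).1
  refine ⟨fun t => Projectivization.mk ℂ (f t) (hne t), ⟨fun z => ⟨univ, f, isOpen_univ, mem_univ z,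
    differentiableOn_univ.2 h1, fun w _ => ⟨hne w, rfl⟩⟩, fun z => ?_⟩, a, b, fun h => ?_⟩
  · obtain ⟨c, hc⟩ := Projectivization.exists_smul_eq_mk_rep ℂ (f z) (hne z)
    rw [← hc]
    exact cone_smulF hX.form (h2 z) c.ne_zero
  · rw [Projectivization.mk_eq_mk_iff'] at h
    obtain ⟨c, hc⟩ := h
    rw [LinearIndependent.pair_iff] at hab
    have h3 := hab 1 (-c) (by rw [one_smul, neg_smul, hc, add_neg_cancel])
    exact one_ne_zero h3.1

theorem B918.mer_of (hX : ProjVariety F d y) {f : ℂ → ℙ ℂ (Fin (n + 1) → ℂ)} (hf : HolIn F f)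
    {z w : ℂ} (hzw : f z ≠ f w) : ∃ h : (Fin 1 → ℂ) → Fin (n + 1) → ℂ, MerIn F h := by
  obtain ⟨g, hgd, ⟨z0, hz0⟩, hg⟩ := exists_lift (φ := fun z => Phi (f z).rep) (holP_of hf.1)
  have hval : ∀ z, g z ≠ 0 → g z ∈ Cone F ∧ ∃ h, f z = Projectivization.mk ℂ (g z) h := by
    intro z hz
    have h1 : f z = Projectivization.mk ℂ (g z) hz := by
      apply proj_ext
      rw [Phi_rep_mk]
      exact hg z hz
    refine ⟨?_, hz, h1⟩
    obtain ⟨c, hc⟩ := Projectivization.exists_smul_eq_mk_rep ℂ (g z) hz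
    have h2 := hf.2 z
    rw [h1, ← hc] at h2
    have h3 := cone_smulF hX.form h2 (inv_ne_zero c.ne_zero)
    rwa [Units.smul_def, smul_smul, inv_mul_cancel₀ c.ne_zero, one_smul] at h3
  refine ⟨fun v => g (v 0), hgd.comp (differentiable_apply (0 : Fin 1)), fun v hv => (hval _ hv).1,
    ?_⟩
  by_contra hcon
  push Not at hcon
  -- all the values are proportional
  have hprop : ∀ t, g t ≠ 0 → f t = f z0 := by
    intro t ht
    have h1 := hcon (fun _ => z0) (fun _ => t)
    rw [LinearIndependent.pair_iff] at h1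
    push Not at h1
    obtain ⟨a, b, hab, hne⟩ := h1
    have hb : b ≠ 0 := by
      rintro rfl
      rw [zero_smul, add_zero] at hab
      rcases smul_eq_zero.1 hab with h2 | h2
      · exact hne h2 rfl
      · exact hz0 h2
    obtain ⟨-, h2, h3⟩ := hval t ht
    obtain ⟨-, h4, h5⟩ := hval z0 hz0
    rw [h3, h5, Projectivization.mk_eq_mk_iff']
    refine ⟨-(b⁻¹ * a), ?_⟩
    have h6 : b • g t = -(a • g z0) := eq_neg_of_add_eq_zero_right hab
    calc -(b⁻¹ * a) • g z0 = b⁻¹ • (-(a • g z0)) := by rw [smul_neg, smul_smul, neg_smul]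
      _ = g t := by rw [← h6, smul_smul, inv_mul_cancel₀ hb, one_smul]
  obtain ⟨j, hj⟩ := Function.ne_iff.1 hz0
  have hdense := dense_ne (q := fun t => g t j) ((differentiable_pi.1 hgd) j) ⟨z0, hj⟩
  have hall : ∀ t, f t = f z0 := fun t =>
    Pool.Agent.H918.SS.H662.eq_of_dense hf.1 (Pool.Agent.H918.SS.H662.holMap_const (f z0))
      (p := fun t => g t j ≠ 0) (fun s => mem_closure_iff_frequently.1 (hdense s)) (fun s hs => hprop s fun h0 => hs (congrFun h0 j)) t
  exact hzw ((hall z).trans (hall w).symm)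

/-- AI-BRO: Brody hyperbolicity. -/
theorem brody_iff (hX : ProjVariety F d y) (hcore : SpecialCore y) :
    (∀ f, HolIn F f → ∀ z w, f z = f w) ↔ LowCurves F = ∅ := by
  constructor
  · intro h
    rw [Set.eq_empty_iff_forall_notMem]
    intro V hV
    obtain ⟨f, hf, -⟩ := (closures hX hcore).2.2.2.2 V hV
    obtain ⟨g, hg, z, w, hzw⟩ := B918.ent_of hX hf
    exact hzw (h g hg z w)
  · intro hlow f hf z w
    by_contra hzw
    obtain ⟨h, hh⟩ := B918.mer_of hX hf hzw
    have h1 := (closures hX hcore).2.2.1 1 h hh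
    rw [hlow] at h1
    exact h1

end Pool.Agent.H918.AI
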