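import Pool.Agent.H916.FDefs
import Pool.Agent.H918.S.SetThm2

/-!
# PROJECT AI (helper918): algebraic hyperbolicity of surfaces over elliptic curves
-/

set_option autoImplicit false

open FF Pool.Agent.W602.GT Pool.Agent.H916

namespace Pool.Agent.H918.AI

/-- the closed subset of the projective space given by the forms `F` -/
def zeroSet {n : ℕ} {ι : Type} (F : ι → MvPolynomial (Fin (n + 1)) ℂ) (hF : ∀ i, IsForm (F i)) :
    PSet ℂ n where
  eqs := Set.range F
  hom := by
    rintro _ ⟨i, rfl⟩
    exact hF i

end Pool.Agent.H918.AI
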