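import Pool.Agent.H918.J.Defs
import Pool.Agent.H916.Fam
import Pool.Graph.R_pool_sql_team_seeded_3997aac3.Q96.HE.Ext

/-! PROJECT AI (helper918): the image of a curve. Proved by helper340 (adapted from
`Family.CurvesGeneral.noLow` in `H916/Fam.lean`). -/

set_option autoImplicit false
set_option linter.overlappingInstances false

open FF Pool.Agent.W603.LV Pool.Agent.W603.PV Pool.Agent.W602.GT Pool.Agent.N154.GG
open Pool.Agent.Y216 (OnVar CurveBound)
open Pool.Agent.H918.SS (ProjVariety)
open Pool.Agent.H918.SP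
open Pool.Agent.H916 (PSet genus IsConst)

namespace Pool.Agent.H918.AI

variable {n : ℕ} {ι : Type} {F : ι → MvPolynomial (Fin (n + 1)) ℂ} {d : ℕ} {K : Type} [Field K]
  [Algebra ℂ K] {y : Fin (n + 1) → K}

/-- AI-IMG: the normalization of the image of a nonconstant map from a curve, Riemann-Hurwitz. -/
theorem image_curve {L : Type} [Field L] [Algebra ℂ L] [IsFF ℂ L] {f : Fin (n + 1) → L}
    (hf : ∃ j, f j ≠ 0) (hc : ¬ IsConst ℂ f) :
    ∃ (E : Type) (_ : Field E) (_ : Algebra ℂ E) (_ : IsFF ℂ E) (z : Fin (n + 1) → E) (m : ℕ),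
      1 ≤ m ∧ coords ℂ z = ⊤ ∧ (∃ j, z j ≠ 0) ∧ pht ℂ f = m * pht ℂ z ∧
      m * canDeg ℂ E ≤ canDeg ℂ L ∧
      ∀ G : MvPolynomial (Fin (n + 1)) ℂ, IsForm G → (val f G = 0 ↔ val z G = 0) := by
  classical
  obtain ⟨i0, hi0⟩ := hf
  obtain ⟨E, hE⟩ : ∃ E : IntermediateField ℂ L, E = coords ℂ f := ⟨_, rfl⟩
  have hfE0 : ∀ {i j}, f j ≠ 0 → f i / f j ∈ E := by
    intro i j hj
    rw [hE]
    exact Pool.Agent.H916.mem_coords f i hj
  by_cases halg : ∀ t ∈ E, IsAlgebraic ℂ t
  · exfalso
    apply hc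
    intro i j hj
    obtain ⟨c, hc⟩ := Pool.Agent.H916.alg_const (halg _ (hfE0 (i := i) hj))
    exact ⟨c, by rw [← hc, div_mul_cancel₀ _ hj]⟩
  push Not at halg
  obtain ⟨t, htE, ht⟩ := halg
  have hfd : FiniteDimensional (IntermediateField.adjoin ℂ {t}) L := IsFF.finite ht
  have hle : IntermediateField.adjoin ℂ {t} ≤ E := by
    rw [IntermediateField.adjoin_simple_le_iff]
    exact htE
  have hfE : FiniteDimensional E L := by
    let i1 : Algebra (IntermediateField.adjoin ℂ {t}) E :=
      (IntermediateField.inclusion hle).toAlgebra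
    have i2 : IsScalarTower (IntermediateField.adjoin ℂ {t}) E L :=
      IsScalarTower.of_algebraMap_eq fun _ => rfl
    exact FiniteDimensional.right (IntermediateField.adjoin ℂ {t}) E L
  have hFF : IsFF ℂ E := Pool.Agent.W619.PQ.isFF_down (E := L)
  obtain ⟨z, hz⟩ : ∃ z : Fin (n + 1) → E, ∀ l, ((z l : E) : L) = f l / f i0 :=
    ⟨fun l => ⟨_, hfE0 hi0⟩, fun _ => rfl⟩
  have hz1 : z i0 = 1 := Subtype.ext (by rw [hz, div_self hi0]; rfl)
  have hzne : ∃ j, z j ≠ 0 := ⟨i0, by rw [hz1]; exact one_ne_zero⟩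
  have hfz : ∀ l, f l = f i0 * algebraMap E L (z l) := by
    intro l
    show f l = f i0 * ((z l : E) : L)
    rw [hz, mul_div_cancel₀ _ hi0]
  refine ⟨E, inferInstance, inferInstance, hFF, z, Module.finrank E L, Module.finrank_pos, ?_,
    hzne, ?_, Pool.Agent.H916.canDeg_nonpos_below (k := ℂ) (E := E) (K := L), ?_⟩
  · have h1 : E ≤ (coords ℂ z).map E.val := by
      have h2 : coords ℂ f ≤ (coords ℂ z).map E.val := by
        unfold Pool.Agent.W602.GT.coords
        rw [IntermediateField.adjoin_map]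
        refine IntermediateField.adjoin.mono _ _ _ ?_
        rintro _ ⟨i, j, hj, rfl⟩
        refine ⟨z i / z j, ⟨i, j, ?_, rfl⟩, ?_⟩
        · intro h0
          have h1 := hz j
          rw [h0] at h1
          have h2 : f j / f i0 = 0 := h1.symm
          rw [div_eq_zero_iff] at h2
          exact h2.elim hj hi0
        · change ((z i / z j : E) : L) = _
          rw [IntermediateField.coe_div, hz, hz, div_div_div_cancel_right₀ hi0]
      exact hE.le.trans h2
    rw [eq_top_iff]
    rintro ⟨w, hw⟩ -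
    obtain ⟨w', hw', hww⟩ := h1 hw
    have h2 : w' = ⟨w, hw⟩ := Subtype.ext hww
    rwa [← h2]
  · have h1 := Pool.Agent.Q96.HE.pht_ext (F := E) (L := L) z hzne hi0
    have h2 : f = fun i => f i0 * algebraMap E L (z i) := funext hfz
    rw [← h1, ← h2]
  · rintro G ⟨e, hG⟩
    have h2 : f = fun i => f i0 * algebraMap E L (z i) := funext hfz
    have h3 : val f G = (f i0)^e * algebraMap E L (val z G) := by
      have h4 : MvPolynomial.aeval (fun i => algebraMap E L (z i)) G =
          algebraMap E L (MvPolynomial.aeval z G) :=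
        (MvPolynomial.comp_aeval_apply (f := z) E.val G).symm
      have h5 := Pool.Agent.W603.PV.aeval_scale hG (fun i => algebraMap E L (z i)) (f i0)
      rw [← h2, h4] at h5
      exact h5
    rw [h3, mul_eq_zero, map_eq_zero]
    constructor
    · rintro (h | h)
      · exact absurd h (pow_ne_zero _ hi0)
      · exact h
    · exact fun h => Or.inr h

end Pool.Agent.H918.AI
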