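import Pool.Agent.H918.J.Defs
import Pool.Agent.H918.J.ImageCurve
import Pool.Agent.H918.S.Spec
import Pool.Agent.H918.S.Pages

/-! PROJECT AI: maps from curves of genus at most one. -/

set_option autoImplicit false
set_option linter.overlappingInstances false

open FF Pool.Agent.W603.LV Pool.Agent.W603.PV Pool.Agent.W602.GT Pool.Agent.N154.GG
open Pool.Agent.Y216 (OnVar CurveBound)
open Pool.Agent.H918.SS (ProjVariety)
open Pool.Agent.H918.SP
open Pool.Agent.H916 (PSet genus IsConst)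

namespace Pool.Agent.H918.AI

variable {n : ℕ} {ι : Type} {F : ι → MvPolynomial (Fin (n + 1)) ℂ} {d : ℕ} {K : Type} [Field K]
  [Algebra ℂ K] {y : Fin (n + 1) → K}

theorem H881.genus_le {K : Type} [Field K] [Algebra ℂ K] : genus ℂ K ≤ 1 ↔ canDeg ℂ K ≤ 0 := by
  unfold genus
  constructor
  · intro h
    have h1 : (canDeg ℂ K : ℝ) ≤ 0 := by linarith
    exact_mod_cast h1
  · intro h
    have h1 : (canDeg ℂ K : ℝ) ≤ 0 := by exact_mod_cast h
    linarith

/-- AI-LOW: maps from curves of genus at most one. -/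
theorem noLow_iff (hX : ProjVariety F d y) :
    (zeroSet F hX.form).NoLowGenus ↔ LowCurves F = ∅ := by
  rw [lowCurves_eq hX]
  constructor
  · intro h
    rw [Set.eq_empty_iff_forall_notMem]
    rintro V ⟨L, i1, i2, i3, v, hv, hgen, hc, rfl⟩
    have hpt : (zeroSet F hX.form).Pt v := by
      refine ⟨hv.1, ?_⟩
      rintro _ ⟨i, rfl⟩
      exact hv.2 _ (hX.form i) (hX.sub.mem i)
    have hconst : IsConst ℂ v := h L (H881.genus_le.2 hc) v hpt
    obtain ⟨i, j, hj, hij⟩ := Pool.Agent.Q103.SF.nonconst_of_low hv hgen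
    obtain ⟨c, hci⟩ := hconst i j hj
    refine hij ?_
    rw [hci, mul_div_assoc, div_self hj, mul_one]
    exact isAlgebraic_algebraMap c
  · intro h L i1 i2 i3 hg x hx
    by_contra hcon
    obtain ⟨E, j1, j2, j3, z, m, hm, hz, hz0, -, hdeg, hval⟩ := image_curve hx.1 hcon
    have hE : canDeg ℂ E ≤ 0 := by
      have h1 : canDeg ℂ L ≤ 0 := H881.genus_le.1 hg
      have h2 : (m : ℤ) * canDeg ℂ E ≤ 0 := hdeg.trans h1
      have h3 : (0 : ℤ) < m := by exact_mod_cast hm
      by_contra hc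
      push Not at hc
      have := mul_pos h3 hc
      omega
    have hon : OnVar ℂ y z :=
      ⟨hz0, spec_of hX fun i => (hval _ (hX.form i)).1 (hx.2 _ ⟨i, rfl⟩)⟩
    have hmem : Pool.Agent.Q103.SF.van z ∈ Pool.Agent.Q103.SF.lowCurves y :=
      ⟨E, j1, j2, j3, z, hon, hz, hE, rfl⟩
    rw [h] at hmem
    exact hmem

end Pool.Agent.H918.AI
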