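import Pool.Agent.H918.J.SubIff
import Pool.Agent.H918.J.NoLowIff
import Pool.Agent.H918.J.BrodyIff
import Pool.Agent.H918.J.AllOfCurveBound
import Pool.Agent.H916.Fam
import Pool.Agent.H918.H.Alg

/-!
# PROJECT AI: the equivalences
-/

set_option autoImplicit false
set_option linter.overlappingInstances false

open FF Pool.Agent.W603.LV Pool.Agent.W603.PV Pool.Agent.W602.GT Pool.Agent.N154.GG
open Pool.Agent.Y216 (OnVar CurveBound)
open Pool.Agent.H918.SS (ProjVariety HasReduction)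
open Pool.Agent.H918.SP Pool.Agent.H918.AH
open Pool.Agent.H918.PF (WForms)
open Pool.Agent.H916 (PSet genus IsConst)

namespace Pool.Agent.H918.AI

variable {n : ℕ} {ι : Type} {F : ι → MvPolynomial (Fin (n + 1)) ℂ} {K : Type} [Field K]
  [Algebra ℂ K] {y : Fin (n + 1) → K} {Λ : PeriodPair}
  {α : (Fin (n + 1) → ℂ) → ℂ ⧸ Λ.lattice} {A : Fin 3 → MvPolynomial (Fin (n + 1)) ℂ}

theorem pt_iff (hF : ∀ i, IsForm (F i)) {L : Type} [Field L] [Algebra ℂ L] {x : Fin (n + 1) → L} :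
    (zeroSet F hF).Pt x ↔ (∃ j, x j ≠ 0) ∧ ∀ i, val x (F i) = 0 := by
  constructor
  · rintro ⟨h1, h2⟩
    exact ⟨h1, fun i => h2 _ ⟨i, rfl⟩⟩
  · rintro ⟨h1, h2⟩
    refine ⟨h1, ?_⟩
    rintro _ ⟨i, rfl⟩
    exact h2 i

theorem pt_on {d : ℕ} (hX : ProjVariety F d y) {L : Type} [Field L] [Algebra ℂ L]
    {x : Fin (n + 1) → L} (hx : (zeroSet F hX.form).Pt x) : OnVar ℂ y x := by
  obtain ⟨h1, h2⟩ := (pt_iff hX.form).1 hx
  exact ⟨h1, spec_of hX h2⟩

/-- the linear bound for the surfaces without curves of genus at most one -/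
theorem linear_of_low (hX : ProjVariety F 2 y) (hK : GeneralType ℂ K 2)
    (hα : HolToTorus (Cone F) Λ α) (hA : WForms F Λ α A) (h0 : val y (A 0) ≠ 0)
    {B : Set (ℂ ⧸ Λ.lattice)} (hB : B.Finite) (hR : HasReduction F α B)
    {H : MvPolynomial (Fin (n + 1)) ℂ} (hH : IsForm H) (hy : val y H ≠ 0)
    (hHB : ∀ u ∈ Cone F, α u ∈ B → val u H = 0) (hlow : LowCurves F = ∅) :
    ∃ A : ℕ, ∀ (L : Type) [Field L] [Algebra ℂ L] [IsFF ℂ L] (f : Fin (n + 1) → L), OnVar ℂ y f →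
      pht ℂ f ≤ A * max (canDeg ℂ L) 0 := by
  have hL : LowInFibres F α := by
    intro K' _ _ v hv hgt
    exfalso
    have h1 : Equations v ∈ LowCurves F := ⟨K', inferInstance, inferInstance, v, hv, hgt, rfl⟩
    rw [hlow] at h1
    exact h1
  have h1 := curves_bounded hX hK hα hA h0 hB hR hH hy hHB
    (no_horizontal hX hα hB hR hH hy hHB hL)
  refine all_of_curveBound hX.sub.gen hX.sub.dim h1 fun E _ _ _ z hz hgz => ?_
  by_contra hcon
  push Not at hcon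
  have h2 : ∃ V, V ∈ LowCurves F := by
    rw [lowCurves_eq hX]
    exact ⟨_, E, inferInstance, inferInstance, inferInstance, z, hz, hgz, hcon, rfl⟩
  rw [hlow] at h2
  obtain ⟨V, hV⟩ := h2
  exact hV

theorem mer_iff {d : ℕ} (hX : ProjVariety F d y) (hcore : SpecialCore y) :
    (∀ (g : ℕ) (h : (Fin g → ℂ) → Fin (n + 1) → ℂ), ¬ MerIn F h) ↔ LowCurves F = ∅ := by
  constructor
  · intro h
    rw [Set.eq_empty_iff_forall_notMem]
    intro V hV
    obtain ⟨f, hf, -⟩ := (closures hX hcore).2.2.2.2 V hV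
    obtain ⟨h1, h2, a, b, hab⟩ := hf
    refine h 1 (fun v => f (v 0)) ⟨h1.comp (differentiable_apply (0 : Fin 1)), fun v _ => h2 _,
      fun _ => a, fun _ => b, hab⟩
  · intro hlow g h hh
    have h1 := (closures hX hcore).2.2.1 g h hh
    rw [hlow] at h1
    exact h1

/-- **The equivalence of the notions of hyperbolicity.** -/
theorem tfae_surface (hX : ProjVariety F 2 y) (hK : GeneralType ℂ K 2)
    (hα : HolToTorus (Cone F) Λ α) (hA : WForms F Λ α A) (h0 : val y (A 0) ≠ 0)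
    {B : Set (ℂ ⧸ Λ.lattice)} (hB : B.Finite) (hR : HasReduction F α B)
    {H : MvPolynomial (Fin (n + 1)) ℂ} (hH : IsForm H) (hy : val y H ≠ 0)
    (hHB : ∀ u ∈ Cone F, α u ∈ B → val u H = 0) :
    [(zeroSet F hX.form).AlgHyp,
      ∀ (L : Type) [Field L] [Algebra ℂ L] [IsFF ℂ L], ∃ b : ℝ, ∀ x : Fin (n + 1) → L,
        (zeroSet F hX.form).Pt x → (pht ℂ x : ℝ) ≤ b,
      (zeroSet F hX.form).NoLowGenus,
      ∀ (g : ℕ) (h : (Fin g → ℂ) → Fin (n + 1) → ℂ), ¬ MerIn F h,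
      ∀ (K' : Type) [Field K'] [Algebra ℂ K'] (w : ℕ) (v : Fin (n + 1) → K'), 1 ≤ w →
        SubVar F K' w v → GeneralType ℂ K' w,
      ∀ f, HolIn F f → ∀ z w, f z = f w].TFAE := by
  have hcore := core_surface hX hα hB hR hH hy hHB
  have hall : AllSpecialSets y := special_of hX.sub.dim hX.sub.ne hX.sub.gen hK hcore
  tfae_have 1 → 2 := by
    rintro ⟨a, ha⟩ L _ _ _
    exact ⟨a * genus ℂ L, fun x hx => ha L x hx⟩
  tfae_have 2 → 3 := by
    intro h L _ _ _ hL x hx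
    obtain ⟨b, hb⟩ := h L
    refine Pool.Agent.H916.const_of_bounded hL (B := ⌈b⌉) fun σ => ?_
    have h1 := hb (fun l => σ (x l)) (Pool.Agent.H916.pt_map σ hx)
    exact_mod_cast h1.trans (Int.le_ceil b)
  tfae_have 3 → 1 := by
    intro h
    obtain ⟨a, ha⟩ := linear_of_low hX hK hα hA h0 hB hR hH hy hHB ((noLow_iff hX).1 h)
    refine ⟨2 * a, fun L _ _ _ x hx => ?_⟩
    have h1 := ha L x (pt_on hX hx)
    have h2 : max (canDeg ℂ L) 0 ≤ canDeg ℂ L + 2 := by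
      have h3 : (-2 : ℤ) ≤ canDeg ℂ L := Pool.Agent.H916.canDeg_ge_neg_two
      exact max_le (by omega) (by omega)
    have h3 : (pht ℂ x : ℤ) ≤ a * (canDeg ℂ L + 2) :=
      h1.trans (mul_le_mul_of_nonneg_left h2 (Int.natCast_nonneg _))
    have h4 : (pht ℂ x : ℝ) ≤ a * ((canDeg ℂ L : ℝ) + 2) := by exact_mod_cast h3
    unfold Pool.Agent.H916.genus
    linarith
  tfae_have 3 ↔ 4 := (noLow_iff hX).trans (mer_iff hX hcore).symm
  tfae_have 3 ↔ 5 := (noLow_iff hX).trans (sub_iff hX hall).symm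
  tfae_have 3 ↔ 6 := (noLow_iff hX).trans (brody_iff hX hcore).symm
  tfae_finish

end Pool.Agent.H918.AI
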