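import Pool.Agent.H918.J.Main
import Pool.Graph.R_pool_sql_team_seeded_3997aac3.Q103.SF.Fin2

/-!
# The notions of hyperbolicity of the library for surfaces fibred over elliptic curves

The proof of `nine_of` is the proof of the library theorem `Pool.Agent.Q103.SF.tfae` (there for the
varieties with `SpecialSets`, which contains a bound of the degrees; here the bound is needed only if
there are no curves of genus at most one).
-/

set_option autoImplicit false
set_option maxHeartbeats 400000
set_option linter.overlappingInstances false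
set_option linter.unusedSectionVars false

namespace Pool.Agent.H918.AI

open FF Filter Polynomial
open Pool.Agent.W602.GT Metric Topology
open Pool.Agent.Y221.PD
open Pool.Agent.Y221.BD (EntireCurve)
open Pool.Agent.Y216 (OnVar CurveBound)
open Pool.Agent.W603.LV (canDeg)
open Pool.Agent.W603.PV (pht)
open Pool.Agent.Q271.RC (Nonconst)
open Pool.Agent.TH466.QG (SubOf)
open Pool.Agent.W602.RG (PointedMaps)
open Pool.Agent.Q103.KO (IsPoint SameP Chain)
open Pool.Agent.Q103.SF
open Pool.Agent.H918.SP (AllSpecialSets)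

variable {M : ℕ} {K : Type} [Field K] [Algebra ℂ K] {x : Fin (M + 1) → K}

theorem nine_of (hw : S_wei) (hp : S_ptd) (hk : S_kob) (h : AllSpecialSets x)
    (hdeg : lowCurves x = ∅ → ∃ A : ℕ, ∀ (L : Type) [Field L] [Algebra ℂ L] [IsFF ℂ L]
      (v : Fin (M + 1) → L), OnVar ℂ x v → Nonconst v → pht ℂ v ≤ A * canDeg ℂ L) :
    List.TFAE [KobayashiHyp x, BrodyHyp x, PicardHyp x, NoMero x, NoElliptic x, AlgHyp x,
      AllGeneral x, GeomHyp x, lowCurves x = ∅] := by
  tfae_have 1 ↔ 2 := (hk M K x).symm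
  tfae_have 9 → 2 := by
    intro h0 f hf
    have := h.entire f hf
    rw [h0] at this
    exact this
  tfae_have 9 → 3 := by
    intro h0 f hf
    have := h.disc f hf
    rw [h0] at this
    exact this
  tfae_have 9 → 4 := by
    intro h0 g u hu
    have := h.mero g u hu
    rw [h0] at this
    exact this
  tfae_have 2 → 9 := by
    intro h0
    rw [Set.eq_empty_iff_forall_notMem]
    intro V hV
    obtain ⟨f, hf, -⟩ := h.curves V hV
    exact h0 f hf
  tfae_have 3 → 2 := by
    intro h0 f hf
    exact h0 _ (disc_of_entire hf)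
  tfae_have 4 → 2 := by
    intro h0 f hf
    obtain ⟨i, j, a, b, hab⟩ := hf.nonconst
    refine h0 1 (fun i t => f i (t 0)) ⟨fun i => ?_, fun G hG hGx t => hf.mem G hG hGx _, i, j,
      fun _ => a, fun _ => b, hab⟩
    exact (hf.hol i).comp (by fun_prop)
  tfae_have 5 → 9 := by
    intro h0
    rw [Set.eq_empty_iff_forall_notMem]
    intro V hV
    obtain ⟨E, _, _, _, v, hE, hv, hn, -⟩ := h.elliptic V hV
    exact h0 E hE v hv hn
  tfae_have 9 → 6 := by
    intro h0
    exact hdeg h0
  tfae_have 6 → 9 := by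
    rintro ⟨A, hA⟩
    rw [Set.eq_empty_iff_forall_notMem]
    rintro V ⟨L, _, _, _, v, hv, hgen, hc, rfl⟩
    have hn := nonconst_of_low hv hgen
    have h1 := hA L v hv hn
    have h2 := Pool.Agent.Q96.LS.pht_pos v hn
    have h3 : (A : ℤ) * canDeg ℂ L ≤ 0 := mul_nonpos_of_nonneg_of_nonpos (by positivity) hc
    omega
  tfae_have 9 → 7 := by
    intro h0 E _ _ w z hz hw ht
    rcases h.sub E w z hz hw ht with h1 | h1
    · exact h1
    · rw [h0] at h1
      exact h1.elim
  tfae_have 7 → 9 := by
    intro h0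
    rw [Set.eq_empty_iff_forall_notMem]
    rintro V ⟨L, _, _, _, v, hv, hgen, hc, rfl⟩
    have hne : v ≠ 0 := by
      obtain ⟨j, hj⟩ := hv.1
      intro h
      exact hj (congrFun h j)
    have h1 := h0 L 1 v ⟨hne, hgen, hv.2⟩ le_rfl (by
      rw [IsFF.trdeg (k := ℂ) (K := L)]
      simp)
    have h2 := pos_of_gt h1
    omega
  tfae_have 6 → 8 := by
    rintro ⟨A, hA⟩ E _ _ _ c a ha
    refine pointed_all (B := A) (fun L _ _ _ f hf => ?_) E c a ha
    by_cases hn : Nonconst f
    · have h1 := hA L f hf hn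
      have h2 : (A : ℤ) * canDeg ℂ L ≤ A * max (canDeg ℂ L) 0 :=
        mul_le_mul_of_nonneg_left (le_max_left _ _) (by positivity)
      exact h1.trans h2
    · exact (pht_const hf.1 hn).trans (by positivity)
  tfae_have 8 → 9 := by
    intro h0
    rw [Set.eq_empty_iff_forall_notMem]
    rintro V ⟨L, _, _, _, v, hv, hgen, hc, rfl⟩
    obtain ⟨c, a, ha, hinf⟩ := hp L hc M v (nonconst_of_low hv hgen)
    apply hinf
    refine (h0 L c a ⟨ha.1, fun G hG hGx => ha.2 G hG (hv.2 G hG hGx)⟩).subset ?_
    rintro φ ⟨f, hf, h1, h2, h3⟩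
    exact ⟨f, hf, fun H hH hHx => h1 H hH (hv.2 H hH hHx), h2, h3⟩
  tfae_have 2 → 5 := by
    intro h0 E _ _ _ hE v hv hn
    obtain ⟨f, hf, -⟩ := curve_of_ell hw hE hv hn
    exact h0 f hf
  tfae_finish

end Pool.Agent.H918.AI
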