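import Pool.Agent.H918.J.Nine

/-!
# Surfaces fibred over elliptic curves: the special sets with the bound of the degrees
-/

set_option autoImplicit false
set_option linter.overlappingInstances false

open FF Pool.Agent.W603.LV Pool.Agent.W603.PV Pool.Agent.W602.GT Pool.Agent.N154.GG
open Pool.Agent.Y216 (OnVar CurveBound)
open Pool.Agent.Q271.RC (Nonconst)
open Pool.Agent.H918.SS (ProjVariety HasReduction)
open Pool.Agent.H918.SP Pool.Agent.H918.AH
open Pool.Agent.H918.PF (WForms)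
open Pool.Agent.H916 (IsConst)
open Pool.Agent.Q103.SF

namespace Pool.Agent.H918.AI

variable {n : ℕ} {ι : Type} {F : ι → MvPolynomial (Fin (n + 1)) ℂ} {K : Type} [Field K]
  [Algebra ℂ K] {y : Fin (n + 1) → K} {Λ : PeriodPair}
  {α : (Fin (n + 1) → ℂ) → ℂ ⧸ Λ.lattice} {A : Fin 3 → MvPolynomial (Fin (n + 1)) ℂ}

/-- the bound of the degrees, or the image is a curve of genus at most one -/
theorem degree_of_curveBound (hgen : coords ℂ y = ⊤) (hdim : Algebra.trdeg ℂ K = (2 : ℕ))
    (h : CurveBound ℂ y) :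
    ∃ A : ℕ, ∀ (L : Type) [Field L] [Algebra ℂ L] [IsFF ℂ L] (v : Fin (n + 1) → L),
      OnVar ℂ y v → Nonconst v → pht ℂ v ≤ A * canDeg ℂ L ∨ van v ∈ lowCurves y := by
  obtain ⟨G, hG, hyG, B₁, hB₁⟩ := h
  obtain ⟨B₂, hB₂⟩ := Pool.Agent.X180.CD.exists_bound hgen hdim hG hyG
  refine ⟨B₁ + B₂, fun L _ _ _ f hf hnc => ?_⟩
  have hpos : 0 < pht ℂ f := Pool.Agent.Q96.LS.pht_pos f hnc
  have hb1 : (0 : ℤ) ≤ (B₁ : ℤ) := Int.natCast_nonneg _
  have hb2 : (0 : ℤ) ≤ (B₂ : ℤ) := Int.natCast_nonneg _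
  push_cast
  by_cases hfG : val f G = 0
  · have hc : ¬ IsConst ℂ f := fun hc => by
      rw [Pool.Agent.H916.pht_const' hf.1 hc] at hpos
      exact lt_irrefl _ hpos
    obtain ⟨E, _, _, _, z, m, hm, hz, hz0, hp, hcan, hiff⟩ := image_curve hf.1 hc
    have hon : OnVar ℂ y z := ⟨hz0, fun H hH h0 => (hiff H hH).1 (hf.2 H hH h0)⟩
    have hzne : z ≠ 0 := by
      obtain ⟨j, hj⟩ := hz0
      intro h0
      exact hj (by rw [h0]; rfl)
    have h1 : pht ℂ z ≤ B₂ := hB₂ E z hzne hz ((hiff G hG).1 hfG) hon.2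
    rcases le_or_gt (canDeg ℂ E) 0 with h2 | h2
    · right
      refine ⟨E, inferInstance, inferInstance, inferInstance, z, hon, hz, h2, ?_⟩
      ext H
      refine and_congr_right fun hH => hiff H hH
    · left
      have hm0 : (0 : ℤ) ≤ (m : ℤ) := Int.natCast_nonneg _
      have h3 : (m : ℤ) ≤ canDeg ℂ L := by
        refine le_trans ?_ hcan
        nlinarith
      have hL : 0 ≤ canDeg ℂ L := hm0.trans h3
      rw [hp]
      calc (m : ℤ) * pht ℂ z ≤ (m : ℤ) * B₂ := mul_le_mul_of_nonneg_left h1 hm0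
        _ ≤ canDeg ℂ L * B₂ := mul_le_mul_of_nonneg_right h3 hb2
        _ ≤ (B₁ + B₂) * canDeg ℂ L := by nlinarith
  · left
    have h1 := hB₁ L f hf hfG
    rcases le_or_gt (canDeg ℂ L) 0 with h2 | h2
    · rw [max_eq_right h2, mul_zero] at h1
      exact absurd hpos (not_lt.2 h1)
    · rw [max_eq_left h2.le] at h1
      nlinarith

/-- **The special sets**, for the surfaces in which the curves of genus at most one are vertical -/
theorem special_surface (hX : ProjVariety F 2 y) (hK : GeneralType ℂ K 2)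
    (hα : HolToTorus (Cone F) Λ α) (hA : WForms F Λ α A) (h0 : val y (A 0) ≠ 0)
    {B : Set (ℂ ⧸ Λ.lattice)} (hB : B.Finite) (hR : HasReduction F α B)
    {H : MvPolynomial (Fin (n + 1)) ℂ} (hH : IsForm H) (hy : val y H ≠ 0)
    (hHB : ∀ u ∈ Cone F, α u ∈ B → val u H = 0) (hL : LowInFibres F α) : SpecialSets y := by
  have hcore := core_surface hX hα hB hR hH hy hHB
  have hall : AllSpecialSets y := special_of hX.sub.dim hX.sub.ne hX.sub.gen hK hcore
  have h1 := curves_bounded hX hK hα hA h0 hB hR hH hy hHB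
    (no_horizontal hX hα hB hR hH hy hHB hL)
  exact
    { finite := hcore.finite
      entire := hcore.entire
      curves := hcore.curves
      elliptic := hcore.elliptic
      mero := hcore.mero
      disc := hcore.disc
      sub := hall.sub
      degree := degree_of_curveBound hX.sub.gen hX.sub.dim h1 }

/-- **The nine notions of hyperbolicity** -/
theorem nine_surface (hX : ProjVariety F 2 y) (hK : GeneralType ℂ K 2)
    (hα : HolToTorus (Cone F) Λ α) (hA : WForms F Λ α A) (h0 : val y (A 0) ≠ 0)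
    {B : Set (ℂ ⧸ Λ.lattice)} (hB : B.Finite) (hR : HasReduction F α B)
    {H : MvPolynomial (Fin (n + 1)) ℂ} (hH : IsForm H) (hy : val y H ≠ 0)
    (hHB : ∀ u ∈ Cone F, α u ∈ B → val u H = 0) :
    List.TFAE [KobayashiHyp y, BrodyHyp y, PicardHyp y, NoMero y, NoElliptic y, AlgHyp y,
      AllGeneral y, GeomHyp y, lowCurves y = ∅] := by
  have hcore := core_surface hX hα hB hR hH hy hHB
  have hall : AllSpecialSets y := special_of hX.sub.dim hX.sub.ne hX.sub.gen hK hcore
  refine nine_of Pool.Agent.Q95.SF.wei Pool.Agent.Q239.SF.ptd Pool.Agent.Q239.SF.kob hall ?_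
  intro hlow
  obtain ⟨a, ha⟩ := linear_of_low hX hK hα hA h0 hB hR hH hy hHB (by rw [lowCurves_eq hX]; exact hlow)
  refine ⟨a, fun L _ _ _ v hv hn => ?_⟩
  have h1 := ha L v hv
  have hpos : 0 < pht ℂ v := Pool.Agent.Q96.LS.pht_pos v hn
  rcases le_or_gt (canDeg ℂ L) 0 with h2 | h2
  · rw [max_eq_right h2, mul_zero] at h1
    exact absurd hpos (not_lt.2 h1)
  · rwa [max_eq_left h2.le] at h1

end Pool.Agent.H918.AI
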