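import Pool.Agent.H918.J.Defs

/-! PROJECT AI, task AI-SUB. -/

set_option autoImplicit false
set_option linter.overlappingInstances false

open FF Pool.Agent.W603.LV Pool.Agent.W603.PV Pool.Agent.W602.GT Pool.Agent.N154.GG
open Pool.Agent.Y216 (OnVar CurveBound)
open Pool.Agent.H918.SS (ProjVariety)
open Pool.Agent.H918.SP
open Pool.Agent.H916 (PSet genus IsConst)

namespace Pool.Agent.H918.AI

variable {n : ℕ} {ι : Type} {F : ι → MvPolynomial (Fin (n + 1)) ℂ} {d : ℕ} {K : Type} [Field K]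
  [Algebra ℂ K] {y : Fin (n + 1) → K}

/-- AI-SUB: closed subvarieties. -/
theorem sub_iff (hX : ProjVariety F d y) (hall : AllSpecialSets y) :
    (∀ (K' : Type) [Field K'] [Algebra ℂ K'] (w : ℕ) (v : Fin (n + 1) → K'), 1 ≤ w →
      SubVar F K' w v → GeneralType ℂ K' w) ↔ LowCurves F = ∅ := by
  constructor
  · intro h
    rw [Set.eq_empty_iff_forall_notMem]
    rintro V ⟨K', i1, i2, v, hv, hgt, rfl⟩
    exact hgt (h K' 1 v le_rfl hv)
  · intro h K' _ _ w v hw hv
    rcases hall.sub K' w v (Pool.Agent.H918.SP.sub_of hX hv) hw hv.dim with h1 | h1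
    · exact h1
    · rw [← lowCurves_eq hX, h] at h1
      exact absurd h1 (Set.notMem_empty _)

end Pool.Agent.H918.AI
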